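import Pool.Agent.MP_c319e0_lc.Mg.Mixing

namespace Pool.Agent.Results.MP_c319e0_lc.Rapid
open Pool.Agent.MP_c319e0_lc

/-- The switch chain mixes in polynomial time for every graphical degree sequence. -/
theorem result : ∃ p : Polynomial ℝ, ∀ (n : ℕ) (k : Fin n → ℕ), (graphs k).Nonempty →
    (∃ τ : ℕ, IsLeast (mixed k (1 / 4)) τ ∧ (τ : ℝ) ≤ p.eval (n : ℝ)) ∧
    ∀ ε : ℝ, 0 < ε → ε < 1 →
      ∃ τ : ℕ, IsLeast (mixed k ε) τ ∧ (τ : ℝ) ≤ p.eval (n : ℝ) * (1 + Real.log ε⁻¹) := by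
  obtain ⟨A, hA⟩ := mixing
  have key : ∀ (n : ℕ) (k : Fin n → ℕ) (ε : ℝ), 0 < ε → ε < 1 → ∃ τ : ℕ,
      IsLeast (mixed k ε) τ ∧ (τ : ℝ) ≤ (((n : ℝ) + 2) ^ A + 1) * (1 + Real.log ε⁻¹) := by
    intro n k ε h0 h1
    have hl : 0 ≤ Real.log ε⁻¹ := Real.log_nonneg (one_le_inv_iff₀.2 ⟨h0, h1.le⟩)
    have hm := hA n k ε h0 h1 _ (Nat.le_ceil _)
    refine ⟨sInf (mixed k ε), ⟨Nat.sInf_mem ⟨_, hm⟩, fun t ht => Nat.sInf_le ht⟩, ?_⟩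
    have h2 : ((sInf (mixed k ε) : ℕ) : ℝ) ≤
        (⌈((n : ℝ) + 2) ^ A * (1 + Real.log ε⁻¹)⌉₊ : ℝ) := by exact_mod_cast Nat.sInf_le hm
    have h3 := Nat.ceil_lt_add_one (a := ((n : ℝ) + 2) ^ A * (1 + Real.log ε⁻¹)) (by positivity)
    nlinarith
  refine ⟨Polynomial.C 4 * ((Polynomial.X + Polynomial.C 2) ^ A + 1), fun n k _ => ⟨?_, ?_⟩⟩
  · obtain ⟨τ, h1, h2⟩ := key n k (1 / 4) (by norm_num) (by norm_num)
    refine ⟨τ, h1, h2.trans ?_⟩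
    have hl : Real.log (1 / 4 : ℝ)⁻¹ ≤ 3 := by
      have := Real.log_le_sub_one_of_pos (x := (1 / 4 : ℝ)⁻¹) (by norm_num)
      linarith [show ((1 / 4 : ℝ)⁻¹) = 4 by norm_num]
    have hp : (0 : ℝ) ≤ ((n : ℝ) + 2) ^ A + 1 := by positivity
    simp only [Polynomial.eval_mul, Polynomial.eval_C, Polynomial.eval_add, Polynomial.eval_pow,
      Polynomial.eval_X, Polynomial.eval_one]
    nlinarith
  · intro ε h0 h1
    obtain ⟨τ, h2, h3⟩ := key n k ε h0 h1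
    refine ⟨τ, h2, h3.trans ?_⟩
    have hl : 0 ≤ Real.log ε⁻¹ := Real.log_nonneg (one_le_inv_iff₀.2 ⟨h0, h1.le⟩)
    have hp : (0 : ℝ) ≤ (((n : ℝ) + 2) ^ A + 1) * (1 + Real.log ε⁻¹) := by positivity
    simp only [Polynomial.eval_mul, Polynomial.eval_C, Polynomial.eval_add, Polynomial.eval_pow,
      Polynomial.eval_X, Polynomial.eval_one]
    nlinarith

end Pool.Agent.Results.MP_c319e0_lc.Rapid
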